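import Mathlib

/-!
# MP_9fbb3c_co, Q1: the parameters `(v, k, ℓ) = (16, 10, 6)`

The triple `(16, 10, 6)` satisfies the equation `(∗)`, a symmetric `(16, 10, 6)`-BIBD exists, but no
symmetric BIBD with `v = 16`, `k = 10` has a `0`-ULSE `6`-colouring.
-/

namespace Pool.Agent.Results.MP_9fbb3c_co.NoColouring

open Finset

/-- `B` is the family of blocks of a symmetric BIBD with `v` points and block size `k`: `v` blocks
of size `k` (repetitions allowed), and every two distinct points lie in exactly `l` blocks, for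
some positive integer `l`. -/
def IsSymBIBD (v k : ℕ) (B : Fin v → Finset (Fin v)) : Prop :=
  2 ≤ k ∧ k < v ∧ (∀ i, (B i).card = k) ∧
    ∃ l : ℕ, 0 < l ∧ ∀ x y : Fin v, x ≠ y → (univ.filter fun i => x ∈ B i ∧ y ∈ B i).card = l

/-- `f` is a `0`-ULSE `ℓ`-colouring of the block family `B`: it is onto the `ℓ` colours, `ℓ - 1`
divides `k`, and in every block exactly one colour does not occur while each other colour occurs
exactly `k / (ℓ - 1)` times. -/
def IsZeroULSE {v : ℕ} (k ℓ : ℕ) (B : Fin v → Finset (Fin v)) (f : Fin v → Fin ℓ) : Prop :=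
  Function.Surjective f ∧ (ℓ - 1) ∣ k ∧
    ∀ i, ∃ c : Fin ℓ, ((B i).filter fun x => f x = c).card = 0 ∧
      ∀ c' : Fin ℓ, c' ≠ c → ((B i).filter fun x => f x = c').card = k / (ℓ - 1)

/-- quadratic form on `F_2^4`, points coded by `Fin 16` -/
def Q (n : ℕ) : Bool := xor (n.testBit 0 && n.testBit 1) (n.testBit 2 && n.testBit 3)

/-- the example: complement of the symmetric `(16, 6, 2)`-design -/
def B16 (t : Fin 16) : Finset (Fin 16) := univ.filter fun x => Q (Nat.xor x t) = false

set_option maxRecDepth 100000 in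
lemma isSym : IsSymBIBD 16 10 B16 := by
  refine ⟨by norm_num, by norm_num, by decide, 6, by norm_num, by decide⟩

lemma no_colouring (B : Fin 16 → Finset (Fin 16)) (hB : IsSymBIBD 16 10 B) (f : Fin 16 → Fin 6) :
    ¬ IsZeroULSE 10 6 B f := by
  rintro ⟨-, -, hf⟩
  obtain ⟨-, -, hk, l, hl, hpair⟩ := hB
  -- fix the point `0`, let `r` be the number of blocks through it
  let R := univ.filter fun i => (0 : Fin 16) ∈ B i
  -- first count
  have h1 : 15 * l = 9 * R.card := by
    have e1 : ∑ y ∈ univ.erase (0 : Fin 16), (univ.filter fun i => (0 : Fin 16) ∈ B i ∧ y ∈ B i).card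
        = 15 * l := by
      rw [Finset.sum_congr rfl (g := fun _ => l)
        (fun y hy => hpair 0 y (Finset.ne_of_mem_erase hy).symm)]
      simp
    have e2 : ∑ y ∈ univ.erase (0 : Fin 16), (univ.filter fun i => (0 : Fin 16) ∈ B i ∧ y ∈ B i).card
        = ∑ i ∈ R, ((B i).erase 0).card := by
      simp only [Finset.card_eq_sum_ones, Finset.sum_filter, R]
      rw [Finset.sum_comm]
      apply Finset.sum_congr rfl
      intro i _
      by_cases h0 : (0 : Fin 16) ∈ B i
      · simp only [h0, true_and, if_true]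
        rw [← Finset.sum_filter, ← Finset.card_eq_sum_ones, ← Finset.card_eq_sum_ones]
        congr 1
        ext y
        simp [and_comm]
      · simp [h0]
    rw [← e1, e2]
    rw [Finset.sum_congr rfl (g := fun _ => 9)]
    · simp [mul_comm]
    · intro i hi
      rw [Finset.card_erase_of_mem (Finset.mem_filter.1 hi).2, hk i]
  -- second count, inside the colour class of `0`
  let C := univ.filter fun y => f y = f 0
  have h2 : (C.card - 1) * l = R.card := by
    have e1 : ∑ y ∈ C.erase (0 : Fin 16), (univ.filter fun i => (0 : Fin 16) ∈ B i ∧ y ∈ B i).card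
        = (C.card - 1) * l := by
      rw [Finset.sum_congr rfl (g := fun _ => l)
        (fun y hy => hpair 0 y (Finset.ne_of_mem_erase hy).symm), Finset.sum_const, smul_eq_mul,
        Finset.card_erase_of_mem (by simp [C])]
    have e2 : ∑ y ∈ C.erase (0 : Fin 16), (univ.filter fun i => (0 : Fin 16) ∈ B i ∧ y ∈ B i).card
        = ∑ i ∈ R, (((B i).filter fun y => f y = f 0).erase 0).card := by
      simp only [Finset.card_eq_sum_ones, Finset.sum_filter, R]
      rw [Finset.sum_comm]
      apply Finset.sum_congr rfl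
      intro i _
      by_cases h0 : (0 : Fin 16) ∈ B i
      · simp only [h0, true_and, if_true]
        rw [← Finset.sum_filter, ← Finset.card_eq_sum_ones, ← Finset.card_eq_sum_ones]
        congr 1
        ext y
        simp only [Finset.mem_filter, Finset.mem_erase, C, Finset.mem_univ, true_and]
        tauto
      · simp [h0]
    rw [← e1, e2]
    rw [Finset.sum_congr rfl (g := fun _ => 1)]
    · simp
    · intro i hi
      have h0 : (0 : Fin 16) ∈ B i := (Finset.mem_filter.1 hi).2
      have hmem : (0 : Fin 16) ∈ (B i).filter fun y => f y = f 0 :=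
        Finset.mem_filter.2 ⟨h0, rfl⟩
      rw [Finset.card_erase_of_mem hmem]
      obtain ⟨c, hc0, hc⟩ := hf i
      by_cases hcc : f 0 = c
      · rw [Finset.card_eq_zero, Finset.eq_empty_iff_forall_notMem] at hc0
        exact absurd (Finset.mem_filter.2 ⟨h0, hcc⟩) (hc0 0)
      · rw [hc _ hcc]
  have h3 : 15 * l = 9 * (C.card - 1) * l := by
    rw [h1, ← h2]; ring
  have h4 := Nat.eq_of_mul_eq_mul_right hl h3
  omega

/-- **Negative answer to Q1** (the negated form). -/
theorem result : ∃ v k ℓ : ℕ, 0 < v ∧ 0 < k ∧ 0 < ℓ ∧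
    (v : ℚ) = ℓ * (ℓ - 2) * k / ((ℓ - 1) ^ 2 - k) ∧
    (∃ B : Fin v → Finset (Fin v), IsSymBIBD v k B) ∧
    ¬ ∃ (B : Fin v → Finset (Fin v)) (f : Fin v → Fin ℓ), IsSymBIBD v k B ∧ IsZeroULSE k ℓ B f := by
  refine ⟨16, 10, 6, by norm_num, by norm_num, by norm_num, by norm_num, ⟨B16, isSym⟩, ?_⟩
  rintro ⟨B, f, hB, hf⟩
  exact no_colouring B hB f hf

end Pool.Agent.Results.MP_9fbb3c_co.NoColouring
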